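/-
MP_6e99db_al.  Groups whose elements have order 1, 3 or a power of 2: if every pair `(t, x)` of an
involution and an element of order 3 inside some nontrivial normal subgroup satisfies
`o(tx) ≤ 8`, or `o([t, x]) ≤ 4`, or generates a group with a nontrivial normal 2- or 3-subgroup,
then the group is locally finite, of known structure.
-/
import Pool.Agent.SPX.Pairs

namespace Pool.Agent.Results.MP_6e99db_al.LocalCriterion

open Pool.Agent.SPX

universe u

/-- Let all elements of `G` have order 3 or a power of two, let `G` have elements of orders 2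
and 3, and let `K` be a nontrivial normal subgroup such that for every involution `t` and every `x`
of order 3 in `K`: `o(tx) ≤ 8`, or `o([t, x]) ≤ 4`, or the subgroup generated by `t` and `x` has a
nontrivial normal subgroup that is a 2-group or a 3-group (for example it is finite or soluble).
Then `G` is locally finite, `o([t, x]) ≤ 3` for all such pairs of `G`, and `G` has one of the two
listed structures. -/
theorem result :
    ∀ (G : Type u) [Group G],
      (∀ g : G, orderOf g = 3 ∨ ∃ k : ℕ, orderOf g = 2 ^ k) →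
      (∃ t : G, orderOf t = 2) → (∃ x : G, orderOf x = 3) →
      ∀ K : Subgroup G, K.Normal → K ≠ ⊥ →
      (∀ t ∈ K, ∀ x ∈ K, orderOf t = 2 → orderOf x = 3 →
        orderOf (t * x) ≤ 8 ∨ orderOf (t * x * t⁻¹ * x⁻¹) ≤ 4 ∨
          ∃ L : Subgroup (Subgroup.closure {t, x}), L.Normal ∧ L ≠ ⊥ ∧
            (IsPGroup 2 L ∨ IsPGroup 3 L)) →
      (∀ s : Finset G, Finite (Subgroup.closure (s : Set G))) ∧
      (∀ t x : G, orderOf t = 2 → orderOf x = 3 → orderOf (t * x * t⁻¹ * x⁻¹) ≤ 3) ∧
      ((∃ N : Subgroup G, N.Normal ∧ N ≠ ⊥ ∧ (N.index = 3 ∨ N.index = 6) ∧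
          (∀ n ∈ N, ∃ k : ℕ, orderOf n = 2 ^ k) ∧
          (∀ a ∈ N, ∀ b ∈ N, ∀ c ∈ N, c * (a * b * a⁻¹ * b⁻¹) = (a * b * a⁻¹ * b⁻¹) * c)) ∨
        (∃ A B : Subgroup G, A.Normal ∧ A ≤ B ∧ (B.index = 1 ∨ B.index = 2) ∧
          (∀ g : G, g ∈ A ↔ g ^ 3 = 1) ∧ (∀ a ∈ A, ∀ b ∈ A, a * b = b * a) ∧
          (∀ a ∈ B, ∀ b ∈ B, a * b * a⁻¹ * b⁻¹ ∈ A) ∧
          (∀ s t : G, orderOf s = 2 → orderOf t = 2 → s * t ∈ A))) := by
  intro G _ hord ⟨t0, ht0⟩ ⟨x0, hx0⟩ K hK hK1 hpairs
  have hG : TP G := tp_of_order hord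
  obtain ⟨ht02, ht01⟩ := order_two_iff.mp ht0
  have hx0X := order_three_iff.mp hx0
  have hP : PP K := pp_of_order hord K hpairs
  have hcw : ∀ t x : G, orderOf t = 2 → (t * x * t⁻¹ * x⁻¹) = cw t x := by
    intro t x ht
    have hti : t⁻¹ = t := inv_eq_of_mul_eq_one_left (order_two_iff.mp ht).1
    rw [hti, cw]
  have bound : ∀ g : G, (g ^ 2 = 1 ∨ g ^ 3 = 1) → orderOf g ≤ 3 := by
    intro g hg
    rcases hg with h | h
    · exact (orderOf_le_of_pow_eq_one (by norm_num) h).trans (by norm_num)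
    · exact orderOf_le_of_pow_eq_one (by norm_num) h
  rcases main hG ht02 ht01 K hK hK1 hP with hN | ⟨A, hA1, hA2, hA3, hA4⟩
  · refine ⟨locFin_of_N hN hx0X, ?_, Or.inl ⟨nTwo hG, nTwo_normal hG, ?_, ?_, ?_, ?_⟩⟩
    · intro t x ht hx
      obtain ⟨h1, h2⟩ := order_two_iff.mp ht
      rw [hcw t x ht]
      exact bound _ (comm_order_N hN h1 (order_three_iff.mp hx))
    · intro h
      obtain ⟨n, hn, hn1⟩ := hN
      rw [h, Subgroup.mem_bot] at hn
      exact hn1 hn
    · obtain ⟨h1, h2⟩ := index_le hN hx0X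
      have hnorm := nTwo_normal hG
      have h3 : 3 ∣ (nTwo hG).index := by
        have h4 : orderOf (x0 : G ⧸ nTwo hG) = 3 := by
          refine orderOf_eq_prime ?_ ?_
          · rw [← QuotientGroup.mk_pow, isX_cube hx0X, QuotientGroup.mk_one]
          · intro h5
            exact nTwo_notX ((QuotientGroup.eq_one_iff x0).mp h5) hx0X
        have h5 := orderOf_dvd_natCard (x0 : G ⧸ nTwo hG)
        rw [h4] at h5
        exact h5
      obtain ⟨q, hq⟩ := h3
      have h4 : q ≤ 2 := by omega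
      interval_cases q
      · omega
      · left; omega
      · right; omega
    · intro n hn
      have h1 := nTwo_notX hn
      rcases hord n with h2 | h2
      · exact absurd (order_three_iff.mp h2) h1
      · exact h2
    · intro a ha b hb c hc
      exact (class_two hc ha hb hx0X).eq
  · obtain ⟨B, hB1, hB2, hB3⟩ := index_inv hG ht02 ht01 A hA1 hA2 hA4
    refine ⟨locFin_inv hG ht02 ht01 A hA1 hA2 hA3 hA4, ?_,
      Or.inr ⟨A, B, hA1, hB1, hB2, ?_, hA3, ?_, ?_⟩⟩
    · intro t x ht hx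
      obtain ⟨h1, h2⟩ := order_two_iff.mp ht
      rw [hcw t x ht]
      exact bound _ (Or.inr (comm_order_three hG ⟨A, hA1, hA2, hA3, hA4⟩ h1 h2
        (order_three_iff.mp hx)))
    · intro g
      rw [hA2, pow_succ, pow_two]
    · intro a ha b hb
      exact hB3 a ha b hb
    · intro s t hs ht
      obtain ⟨h1, h2⟩ := order_two_iff.mp hs
      obtain ⟨h3, h4⟩ := order_two_iff.mp ht
      exact hA4 s t h1 h2 h3 h4

end Pool.Agent.Results.MP_6e99db_al.LocalCriterion
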